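import Pool.Agent.H344R2.KBounds
import Pool.Agent.H370R2.RightZeros
import Pool.Agent.H295R2.SI.Main

/-! Isolated simple critical zeros in short intervals. -/

open Complex Filter Topology Set MeasureTheory
open scoped BigOperators ComplexConjugate

namespace H295Iso

open H370 H344 H295SI

/-- simple critical zeros in `(T, T+H]` without another zero in the box `ρ × h` around them -/
def isoSet (F : ℂ → ℂ) (T H ρ h : ℝ) : Set ℂ :=
  {s : ℂ | s ∈ zset F T (T + H) ∧ s.re = 1 / 2 ∧ mult F s = 1 ∧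
    ∀ s' : ℂ, F s' = 0 → 0 < s'.re → s'.re < 1 → s' ≠ s → |s'.im - s.im| ≤ ρ →
      h < |s'.re - 1 / 2|}

noncomputable def isoN (F : ℂ → ℂ) (T H ρ h : ℝ) : ℕ := (isoSet F T H ρ h).ncard

lemma Ns_le_NN {F : ℂ → ℂ} (hF : GoodL F) {a b : ℝ} (h : 1 ≤ a) : Ns F a b ≤ NN F a b := by
  have := NR_split hF (b := b) h
  omega

lemma SF_mono {F : ℂ → ℂ} (hF : GoodL F) {a b a' b' : ℝ} (h : 1 ≤ a) (h' : 1 ≤ a') {x : ℝ}
    (hx : x ∈ SF F a b) (h1 : a' < x) (h2 : x ≤ b') : x ∈ SF F a' b' := by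
  rw [mem_SF] at hx ⊢
  refine ⟨?_, hx.2⟩
  have h3 := (mem_Zf hF h).mp hx.1
  rw [mem_Zf hF h']
  exact ⟨h3.1, h3.2.1, by simpa using h1, by simpa using h2, h3.2.2.2.2⟩

theorem iso_count {F : ℂ → ℂ} (hF : GoodL F) : ∃ C : ℝ, 0 < C ∧ ∀ T : ℝ, 10 ≤ T → ∀ H : ℝ, 5 ≤ H →
    H ≤ T → ∀ U1 U2 : ℝ, T ≤ U1 → U1 ≤ T + 1 → T + H - 1 ≤ U2 → U2 ≤ T + H → ∀ ρ h : ℝ, ρ ≤ 1 →
      ((SI F U1 U2 ρ h).card : ℝ) ≤ isoN F T H ρ h + C * Real.log T := by
  classical
  obtain ⟨C0, hC0, hz⟩ := zcount hF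
  refine ⟨4 * C0, by positivity, fun T hT H hH5 hHT U1 U2 hU1 hU1' hU2 hU2' ρ h hρ => ?_⟩
  have hlog : 0 < Real.log T := Real.log_pos (by linarith)
  set A := SI F U1 U2 ρ h with hA
  have hASF : A ⊆ SF F U1 U2 := Finset.filter_subset _ _
  have hU : 1 ≤ U1 := by linarith
  set A1 := A.filter (fun x => U1 + 1 < x ∧ x < U2 - 1) with hA1
  have hsub : A ⊆ A1 ∪ (SF F U1 (U1 + 2) ∪ SF F (U2 - 2) U2) := by
    intro x hx
    rw [Finset.mem_union, Finset.mem_union]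
    have hxb := SF_mem hF hU (hASF hx)
    by_cases h1 : U1 + 1 < x
    · by_cases h2 : x < U2 - 1
      · exact Or.inl (Finset.mem_filter.mpr ⟨hx, h1, h2⟩)
      · right; right
        exact SF_mono hF hU (by linarith) (hASF hx) (by linarith) hxb.2
    · right; left
      exact SF_mono hF hU hU (hASF hx) hxb.1 (by linarith)
  have hc1 : A1.card ≤ isoN F T H ρ h := by
    unfold isoN
    have himg : ((A1.image (fun x : ℝ => (1 / 2 + I * x : ℂ)) : Finset ℂ) : Set ℂ) ⊆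
        isoSet F T H ρ h := by
      intro s hs
      rw [Finset.mem_coe, Finset.mem_image] at hs
      obtain ⟨x, hx, rfl⟩ := hs
      rw [hA1, Finset.mem_filter] at hx
      obtain ⟨hx1, hx2, hx3⟩ := hx
      have h1 := mem_SF.mp (hASF hx1)
      have h2 := (mem_Zf hF hU).mp h1.1
      have him : (1 / 2 + I * (x : ℂ)).im = x := by simp
      refine ⟨⟨h2.1, h2.2.1, ?_, ?_, h2.2.2.2.2⟩, by simp, h1.2, ?_⟩
      · rw [him]; linarith
      · rw [him]; linarith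
      · intro s' hs0 hs1 hs2 hne hd
        rw [him] at hd
        rw [hA, SI, Finset.mem_filter] at hx1
        have h3 := abs_le.mp hd
        exact hx1.2 s' ((mem_Zf hF hU).mpr ⟨hs1, hs2, by linarith [h3.1], by linarith [h3.2], hs0⟩)
          hne hd
    have hinj : Function.Injective (fun x : ℝ => (1 / 2 + I * x : ℂ)) := by
      intro x y hxy
      have := congrArg Complex.im hxy
      simpa using this
    rw [← Finset.card_image_of_injective A1 hinj, ← Set.ncard_coe_finset]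
    refine Set.ncard_le_ncard himg ?_
    exact (zset_finite hF T (T + H) (by linarith)).subset fun s hs => hs.1
  have hc2 : ((SF F U1 (U1 + 2)).card : ℝ) ≤ 2 * C0 * Real.log T := by
    rw [← Ns_card hF hU]
    have h1 := Ns_le_NN hF (b := U1 + 2) hU
    have h2 := hz (U1 + 1) (by linarith)
    rw [show U1 + 1 - 1 = U1 by ring, show U1 + 1 + 1 = U1 + 2 by ring] at h2
    have h3 : (Ns F U1 (U1 + 2) : ℝ) ≤ NN F U1 (U1 + 2) := by exact_mod_cast h1
    have h4 : Real.log (U1 + 1) ≤ 2 * Real.log T := by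
      rw [← Real.log_rpow (by linarith)]
      apply Real.log_le_log (by linarith)
      norm_num
      nlinarith
    nlinarith
  have hc3 : ((SF F (U2 - 2) U2).card : ℝ) ≤ 2 * C0 * Real.log T := by
    have hU3 : 1 ≤ U2 - 2 := by linarith
    rw [← Ns_card hF hU3]
    have h1 := Ns_le_NN hF (b := U2) hU3
    have h2 := hz (U2 - 1) (by linarith)
    rw [show U2 - 1 - 1 = U2 - 2 by ring, show U2 - 1 + 1 = U2 by ring] at h2
    have h3 : (Ns F (U2 - 2) U2 : ℝ) ≤ NN F (U2 - 2) U2 := by exact_mod_cast h1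
    have h4 : Real.log (U2 - 1) ≤ 2 * Real.log T := by
      rw [← Real.log_rpow (by linarith)]
      apply Real.log_le_log (by linarith)
      norm_num
      nlinarith
    nlinarith
  have h5 : A.card ≤ A1.card + ((SF F U1 (U1 + 2)).card + (SF F (U2 - 2) U2).card) :=
    (Finset.card_le_card hsub).trans ((Finset.card_union_le _ _).trans
      (Nat.add_le_add_left (Finset.card_union_le _ _) _))
  have h6 : (A.card : ℝ) ≤ (A1.card : ℝ) + ((SF F U1 (U1 + 2)).card + (SF F (U2 - 2) U2).card) := by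
    exact_mod_cast h5
  have h7 : (A1.card : ℝ) ≤ isoN F T H ρ h := by exact_mod_cast hc1
  linarith

/-- the Montgomery-Taylor window is the window with parameter `√2` -/
lemma gS_eq (x : ℝ) : gS (Real.sqrt 2) x = g0 x := by
  unfold gS g0
  have hs2 : Real.sqrt 2 * Real.sqrt 2 = 2 := Real.mul_self_sqrt (by norm_num)
  have hs : Real.sqrt 2 ≠ 0 := by positivity
  have h1 : Real.sqrt 2 / 2 = 1 / Real.sqrt 2 := by
    rw [div_eq_div_iff (by norm_num) hs]; linarith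
  have hsin := GramAux.sin_half_pos
  rw [h1]
  have hsin' : Real.sin (1 / Real.sqrt 2) ≠ 0 := hsin.ne'
  rw [div_eq_div_iff (by positivity) (by positivity)]
  linear_combination (Real.cos (Real.sqrt 2 * x) * Real.sin (1 / Real.sqrt 2)) * hs2

lemma phiG_eq (Λ : ℝ) (z : ℂ) : phiG (gS (Real.sqrt 2)) Λ z = phi Λ z := by
  unfold phiG phi kapG kap
  simp only [gS_eq]

lemma QQG_eq (F : ℂ → ℂ) (Λ U1 U2 : ℝ) : QQG (gS (Real.sqrt 2)) F Λ U1 U2 = QQ F Λ U1 U2 := by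
  unfold QQG QQ
  simp only [phiG_eq]

/-- the short interval constant of the Montgomery-Taylor window -/
noncomputable def c0 (h : ℝ) : ℝ := cR (RS (Real.sqrt 2)) h

lemma c0_cont {h : ℝ} (hh : 0 < h) : ContinuousAt c0 h := by
  unfold c0 cR
  have : h ≠ 0 := hh.ne'
  fun_prop (disch := assumption)

theorem pairShort {F : ℂ → ℂ} (hF : GoodL F) : ∀ h ε η : ℝ, 0 < ε → ε < h → h ≤ 1 → 0 < η →
    ∃ T0 : ℝ, 10 ≤ T0 ∧ ∀ T : ℝ, T0 ≤ T → ∀ H : ℝ, T ^ h ≤ H → H ≤ T →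
    ∃ U1 U2 : ℝ, T ≤ U1 ∧ U1 ≤ T + 1 ∧ T + H - 1 ≤ U2 ∧ U2 ≤ T + H ∧
      |(NN F U1 U2 : ℝ) - H * Real.log T / (2 * Real.pi)| ≤ η * (H * Real.log T) ∧
      QQ F ((h - ε) * Real.log T) U1 U2 ≤ (H * Real.log T / (2 * Real.pi)) *
        (c0 (h - ε) + η) := by
  have h0 : (0 : ℝ) < Real.sqrt 2 := by positivity
  have hP : PairShort := H613SI.pairShort H627SI.lamSmooth H228SI.qqJJ H965SI.countShort
      (H804JJ.jjShort H399SI.explShort Pool.Agent.H431R2.SI.outerShort)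
  intro h ε η hε hεh hh hη
  obtain ⟨T0, hT0, H0⟩ := hP (gS (Real.sqrt 2)) (RS (Real.sqrt 2)) (H255SI.winS _ h0 le_rfl)
    (H793SI.convS _ h0 le_rfl) (H218SI3.kSqS _ h0 le_rfl) F hF h ε η hε hεh hh hη
  refine ⟨T0, hT0, fun T hT H hH hHT => ?_⟩
  obtain ⟨U1, U2, a1, a2, a3, a4, a5, a6⟩ := H0 T hT H hH hHT
  rw [QQG_eq] at a6
  exact ⟨U1, U2, a1, a2, a3, a4, a5, a6⟩

end H295Iso
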