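import Pool.Agent.H295R2.Iso.A

/-! Isolated simple critical zeros in short intervals: the counting argument. -/

open Complex Filter Topology Set MeasureTheory
open scoped BigOperators ComplexConjugate

namespace H295Iso

open H370 H344 H295SI

/-- the numerical core: from the trace inequality to the count -/
lemma num_core {N s S Q M q e η c c' K2 ε A CL Niso NT : ℝ} (hM : 0 < M)
    (hK0 : 0.678 ≤ K2) (hK1 : K2 ≤ 1) (hs : s ≤ N) (hq : q = (1 - e) * K2)
    (he0 : 0 < e) (he1 : e ≤ 1 / 10) (hη0 : 0 < η) (hη1 : η ≤ 1 / 100)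
    (hcore : 2 * N - s + q * (s - S) ≤ Q)
    (hN1 : (1 - 7 * η) * M ≤ N) (hN2 : N ≤ (1 + 7 * η) * M)
    (hQ : Q ≤ M * (c' + η)) (hc : c' ≤ c + ε * K2 / 4) (hec : e * |c - 1| ≤ ε * K2 / 8)
    (hA : A = 1 - (c - 1) / K2 - ε) (hA0 : 0 < A)
    (heta : (15 + 8 * A + 1) * η ≤ ε * K2 / 4) (heε : e * (ε * K2) ≤ ε * K2 / 8)
    (hCL : CL ≤ η * M) (hS : S ≤ Niso + CL) (hNT : NT ≤ N + CL) (hε : 0 < ε) :
    A * NT ≤ Niso := by
  have hK20 : 0 < K2 := by linarith
  have hq0 : 0 < q := by rw [hq]; apply mul_pos <;> linarith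
  have hq1 : q ≤ 1 := by rw [hq]; nlinarith
  have h1 : (1 + q) * N - M * (c' + η) ≤ q * S := by nlinarith
  have h2 : (1 + q) * ((1 - 7 * η) * M) ≤ (1 + q) * N :=
    mul_le_mul_of_nonneg_left hN1 (by linarith)
  have h3 : ((1 + q) * (1 - 7 * η) - (c' + η)) * M ≤ q * S := by
    have : ((1 + q) * (1 - 7 * η) - (c' + η)) * M =
      (1 + q) * ((1 - 7 * η) * M) - M * (c' + η) := by ring
    linarith
  -- NT ≤ (1+8η) M
  have h4 : NT ≤ (1 + 8 * η) * M := by nlinarith
  have h5 : A * NT ≤ A * ((1 + 8 * η) * M) := mul_le_mul_of_nonneg_left h4 hA0.le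
  have hqA : q * A = (1 - e) * (K2 - (c - 1) - ε * K2) := by
    rw [hq, hA]; field_simp
  -- the inequality between constants
  have h6 : q * A * (1 + 8 * η) + q * η ≤ (1 + q) * (1 - 7 * η) - (c' + η) := by
    have e1 : |e * (c - 1)| ≤ ε * K2 / 8 := by
      rw [abs_mul, abs_of_pos he0]; exact hec
    have e2 := (abs_le.mp e1).2
    have e2' := (abs_le.mp e1).1
    have e3 : q * A * (8 * η) ≤ 8 * A * η := by
      have : q * (A * (8 * η)) ≤ 1 * (A * (8 * η)) :=
        mul_le_mul_of_nonneg_right hq1 (by positivity)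
      linarith
    have e4 : q * η ≤ η := by nlinarith
    have e5 : (1 + q) * (7 * η) ≤ 14 * η := by nlinarith
    have e6 : q * A = q - (c - 1) + e * (c - 1) - ε * K2 + e * (ε * K2) := by
      rw [hqA, hq]; ring
    have e7 : 0 < ε * K2 := by positivity
    nlinarith
  have h7 : q * (A * ((1 + 8 * η) * M)) + q * (η * M) ≤ q * S := by
    have : q * (A * ((1 + 8 * η) * M)) + q * (η * M) = (q * A * (1 + 8 * η) + q * η) * M := by ring
    rw [this]
    exact (mul_le_mul_of_nonneg_right h6 hM.le).trans h3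
  have h8 : A * ((1 + 8 * η) * M) + η * M ≤ S := by
    have : q * (A * ((1 + 8 * η) * M) + η * M) ≤ q * S := by linarith
    exact le_of_mul_le_mul_left this hq0
  linarith

theorem iso_short {F : ℂ → ℂ} (hF : GoodL F) {h r ε : ℝ} (hh : 0 < h) (hh1 : h ≤ 1)
    (hr0 : 0 ≤ r) (hr : h * r ≤ 1 / 3) (hε : 0 < ε) :
    ∃ T0 : ℝ, 10 ≤ T0 ∧ ∀ T : ℝ, T0 ≤ T → ∀ H : ℝ, T ^ h ≤ H → H ≤ T →
      (1 - (c0 h - 1) / KK (h * r) ^ 2 - ε) * (NN F T (T + H) : ℝ) ≤
        isoN F T H (2 * Real.pi * r / Real.log T) (4 * Real.pi / 5 / (h * Real.log T)) := by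
  classical
  have hpi := Real.pi_pos
  have hpi2 : Real.pi < 3.15 := Real.pi_lt_d2
  set K2 : ℝ := KK (h * r) ^ 2 with hK2
  set A : ℝ := 1 - (c0 h - 1) / K2 - ε with hA
  by_cases hA0 : A ≤ 0
  · refine ⟨10, le_rfl, fun T _ H _ _ => ?_⟩
    have h1 : A * (NN F T (T + H) : ℝ) ≤ 0 := mul_nonpos_of_nonpos_of_nonneg hA0 (by positivity)
    exact h1.trans (by positivity)
  push Not at hA0
  have hhr0 : 0 ≤ h * r := by positivity
  have hKa : 0.824 ≤ KK (h * r) := KK_third hhr0 hr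
  have hKb : KK (h * r) ≤ 1 := KK_le_one _
  have hK0 : 0.678 ≤ K2 := by
    have : (0.824 : ℝ) ^ 2 ≤ KK (h * r) ^ 2 := pow_le_pow_left₀ (by norm_num) hKa 2
    norm_num at this ⊢
    linarith
  have hK1 : K2 ≤ 1 := by rw [hK2]; nlinarith
  have hK20 : 0 < K2 := by linarith
  -- parameters
  obtain ⟨ε', hε'0, hε'h, hcc⟩ : ∃ ε' : ℝ, 0 < ε' ∧ ε' < h ∧ c0 (h - ε') ≤ c0 h + ε * K2 / 4 := by
    have hcont := c0_cont hh
    have h1 : ∀ᶠ x in 𝓝 h, c0 x < c0 h + ε * K2 / 4 :=
      hcont.eventually (gt_mem_nhds (by have : 0 < ε * K2 := by positivity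
                                        linarith))
    rw [Metric.eventually_nhds_iff] at h1
    obtain ⟨d, hd0, hd⟩ := h1
    refine ⟨min (d / 2) (h / 2), by positivity, lt_of_le_of_lt (min_le_right _ _) (by linarith), ?_⟩
    refine (hd ?_).le
    rw [Real.dist_eq, abs_sub_comm, show h - (h - min (d / 2) (h / 2)) = min (d / 2) (h / 2) by ring,
      abs_of_pos (by positivity)]
    exact lt_of_le_of_lt (min_le_left _ _) (by linarith)
  set e : ℝ := min (1 / 10) (ε * K2 / (8 * (|c0 h - 1| + 1))) with he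
  have he0 : 0 < e := by rw [he]; positivity
  have he1 : e ≤ 1 / 10 := min_le_left _ _
  have hec : e * |c0 h - 1| ≤ ε * K2 / 8 := by
    have h1 : e ≤ ε * K2 / (8 * (|c0 h - 1| + 1)) := min_le_right _ _
    rw [le_div_iff₀ (by positivity)] at h1
    have h2 := abs_nonneg (c0 h - 1)
    nlinarith
  have heε : e * (ε * K2) ≤ ε * K2 / 8 := by
    have : 0 < ε * K2 := by positivity
    nlinarith
  set η : ℝ := min (1 / 100) (ε * K2 / (4 * (15 + 8 * A + 1))) with hη
  have hη0 : 0 < η := by rw [hη]; positivity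
  have hη1 : η ≤ 1 / 100 := min_le_left _ _
  have heta : (15 + 8 * A + 1) * η ≤ ε * K2 / 4 := by
    have h1 : η ≤ ε * K2 / (4 * (15 + 8 * A + 1)) := min_le_right _ _
    rw [le_div_iff₀ (by positivity)] at h1
    linarith
  obtain ⟨T1, hT1, hPC⟩ := pairShort hF h ε' η hε'0 hε'h hh1 hη0
  obtain ⟨C, hC, hcnt⟩ := H965SI.countShort F hF
  obtain ⟨C', hC', hiso⟩ := iso_count hF
  obtain ⟨T3, hT3, hKB⟩ := kernel_bounds hhr0 hr he0 (by linarith)
  -- largeness of `T`
  have htop : Tendsto (fun T : ℝ => T ^ h) atTop atTop := tendsto_rpow_atTop hh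
  have hlogtop := Real.tendsto_log_atTop
  obtain ⟨T4, hT4⟩ := (htop.eventually_ge_atTop
    (max (max T3 5) (2 * Real.pi * (C + C') / η))).exists_forall_of_atTop
  obtain ⟨T5, hT5⟩ := (hlogtop.eventually_ge_atTop (max 10 (2 * Real.pi * r))).exists_forall_of_atTop
  refine ⟨max (max T1 10) (max T4 T5), (le_max_right _ _).trans (le_max_left _ _),
    fun T hT H hH hHT => ?_⟩
  have hTT1 : T1 ≤ T := ((le_max_left _ _).trans (le_max_left _ _)).trans hT
  have hT10 : 10 ≤ T := ((le_max_right _ _).trans (le_max_left _ _)).trans hT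
  have hTT4 := hT4 T (((le_max_left _ _).trans (le_max_right _ _)).trans hT)
  have hTT5 := hT5 T (((le_max_right _ _).trans (le_max_right _ _)).trans hT)
  have hTh3 : T3 ≤ T ^ h := ((le_max_left _ _).trans (le_max_left _ _)).trans hTT4
  have hTh5 : 5 ≤ T ^ h := ((le_max_right _ _).trans (le_max_left _ _)).trans hTT4
  have hThC : 2 * Real.pi * (C + C') / η ≤ T ^ h := (le_max_right _ _).trans hTT4
  have hL10 : 10 ≤ Real.log T := (le_max_left _ _).trans hTT5
  have hLr : 2 * Real.pi * r ≤ Real.log T := (le_max_right _ _).trans hTT5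
  have hL : 0 < Real.log T := by linarith
  have hH5 : 5 ≤ H := hTh5.trans hH
  obtain ⟨U1, U2, hU1, hU1', hU2, hU2', hNN, hQQ⟩ := hPC T hTT1 H hH hHT
  set M : ℝ := H * Real.log T / (2 * Real.pi) with hM
  have hM0 : 0 < M := by positivity
  have hHL : H * Real.log T = 2 * Real.pi * M := by rw [hM]; field_simp
  rw [hHL] at hNN
  have hηM : η * (2 * Real.pi * M) ≤ 7 * η * M := by
    have : 2 * Real.pi ≤ 7 := by linarith
    calc η * (2 * Real.pi * M) = (η * M) * (2 * Real.pi) := by ring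
      _ ≤ (η * M) * 7 := by
        apply mul_le_mul_of_nonneg_left this (by positivity)
      _ = 7 * η * M := by ring
  obtain ⟨hNNl, hNNu⟩ := abs_le.mp hNN
  have hcnt2 := (hcnt T hT10 H (by linarith) hHT U1 U2 hU1 hU1' hU2 hU2').2
  have hρ1 : 2 * Real.pi * r / Real.log T ≤ 1 := by
    rw [div_le_one hL]; exact hLr
  have hi := hiso T hT10 H hH5 hHT U1 U2 hU1 hU1' hU2 hU2' (2 * Real.pi * r / Real.log T)
    (4 * Real.pi / 5 / (h * Real.log T)) hρ1
  have hlogTh : Real.log (T ^ h) = h * Real.log T := Real.log_rpow (by linarith) h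
  have hΛ0 : 0 ≤ (h - ε') * Real.log T := mul_nonneg (by linarith) hL.le
  have hΛ1 : (h - ε') * Real.log T ≤ Real.log (T ^ h) := by
    rw [hlogTh]
    exact mul_le_mul_of_nonneg_right (by linarith) hL.le
  obtain ⟨hk1, hk2⟩ := hKB (T ^ h) hTh3 ((h - ε') * Real.log T) hΛ0 hΛ1
  have hρe : 2 * Real.pi * (h * r) / Real.log (T ^ h) = 2 * Real.pi * r / Real.log T := by
    rw [hlogTh]; field_simp
  rw [hρe] at hk1 hk2
  rw [hlogTh] at hk2
  have hU : 1 ≤ U1 := by linarith
  have hρ0 : 0 ≤ 2 * Real.pi * r / Real.log T := by positivity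
  have hh0 : 0 ≤ 4 * Real.pi / 5 / (h * Real.log T) := by positivity
  have hq00 : 0 ≤ (1 - e) * K2 := mul_nonneg (by linarith) hK20.le
  have core := core_ineq (U2 := U2) hF hU ((h - ε') * Real.log T) _ _ ((1 - e) * K2)
    hρ0 hh0 hq00 hk1 hk2 (fun _ _ => 0) (by
      intro v
      simp only [zero_mul, Finset.sum_const_zero]
      exact Finset.sum_nonneg fun x _ => by positivity)
  rw [YT_zero, add_zero] at core
  have hNsNN : (Ns F U1 U2 : ℝ) ≤ NN F U1 U2 := by exact_mod_cast Ns_le_NN hF hU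
  have hCL : (C + C') * Real.log T ≤ η * M := by
    rw [div_le_iff₀ hη0] at hThC
    have h1 : 2 * Real.pi * (C + C') ≤ H * η := hThC.trans (mul_le_mul_of_nonneg_right hH hη0.le)
    have : η * M = (H * η) * (Real.log T / (2 * Real.pi)) := by rw [hM]; ring
    rw [this]
    calc (C + C') * Real.log T = (2 * Real.pi * (C + C')) * (Real.log T / (2 * Real.pi)) := by
          field_simp
      _ ≤ (H * η) * (Real.log T / (2 * Real.pi)) :=
        mul_le_mul_of_nonneg_right h1 (by positivity)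
  have hCl1 : 0 ≤ C * Real.log T := by positivity
  have hCl2 : 0 ≤ C' * Real.log T := by positivity
  exact num_core (N := (NN F U1 U2 : ℝ)) (s := (Ns F U1 U2 : ℝ)) (Q := QQ F ((h - ε') * Real.log T) U1 U2)
    (M := M) (q := (1 - e) * K2) (c := c0 h) (c' := c0 (h - ε')) (K2 := K2)
    hM0 hK0 hK1 hNsNN rfl he0 he1 hη0 hη1 core (by linarith) (by linarith) hQQ hcc hec hA hA0
    heta heε hCL (by linarith) (by linarith) hε

end H295Iso
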